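import Mathlib

set_option autoImplicit false

namespace Pool.Agent.Results.MP_1643f9_gt.FlatS8

open Real

/-- Derivative in the first coordinate. -/
noncomputable def D₁ (f : ℝ × ℝ → ℝ) (p : ℝ × ℝ) : ℝ := deriv (fun s => f (s, p.2)) p.1

/-- Derivative in the second coordinate. -/
noncomputable def D₂ (f : ℝ × ℝ → ℝ) (p : ℝ × ℝ) : ℝ := deriv (fun t => f (p.1, t)) p.2

/-- The (nonnegative) Laplacian of the flat metric. -/
noncomputable def Lap (f : ℝ × ℝ → ℝ) (p : ℝ × ℝ) : ℝ := -(D₁ (D₁ f) p + D₂ (D₂ f) p)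

noncomputable def T (c n φ m ψ : ℝ) (p : ℝ × ℝ) : ℝ := c * cos (n * p.1 - φ) * cos (m * p.2 - ψ)

lemma hc (n φ s : ℝ) : HasDerivAt (fun s => cos (n * s - φ)) (-sin (n * s - φ) * n) s := by
  simpa using (((hasDerivAt_id s).const_mul n).sub_const φ).cos

lemma h1 (c n φ m ψ : ℝ) (p : ℝ × ℝ) : HasDerivAt (fun s => T c n φ m ψ (s, p.2))
    (T (c * n) n (φ - π / 2) m ψ p) p.1 := by
  refine (((hc n φ p.1).const_mul c).mul_const (cos (m * p.2 - ψ))).congr_deriv ?_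
  simp only [T, ← sub_add, cos_add_pi_div_two]
  ring

lemma h2 (c n φ m ψ : ℝ) (p : ℝ × ℝ) : HasDerivAt (fun s => T c n φ m ψ (p.1, s))
    (T (c * m) n φ m (ψ - π / 2) p) p.2 := by
  refine ((hc m ψ p.2).const_mul (c * cos (n * p.1 - φ))).congr_deriv ?_
  simp only [T, ← sub_add, cos_add_pi_div_two]
  ring

lemma lap (c n φ m ψ : ℝ) (p : ℝ × ℝ) :
    Lap (T c n φ m ψ) p = (n ^ 2 + m ^ 2) * T c n φ m ψ p := by
  have e1 : ∀ c φ, D₁ (T c n φ m ψ) = T (c * n) n (φ - π / 2) m ψ := fun c φ =>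
    funext fun p => (h1 c n φ m ψ p).deriv
  have e2 : ∀ c ψ, D₂ (T c n φ m ψ) = T (c * m) n φ m (ψ - π / 2) := fun c ψ =>
    funext fun p => (h2 c n φ m ψ p).deriv
  simp only [Lap, e1, e2, T, ← sub_add, add_assoc, add_halves, cos_add_pi]
  ring

noncomputable def k : ℝ := (√540)⁻¹
noncomputable def A : ℝ := √(27 / 8)
noncomputable def m : Fin 9 → ℝ := ![0, 0, 0, √48, √48, √15, √15, √15, √15]
noncomputable def φ : Fin 9 → ℝ := ![0, 0, π / 2, 0, 0, 0, 0, π / 2, π / 2]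
noncomputable def ψ : Fin 9 → ℝ := ![0, 0, 0, 0, π / 2, 0, π / 2, 0, π / 2]
noncomputable def c₀ : Fin 9 → ℝ := ![0, k * (4 / 3 * A), 0, 0, 0, 0, 0, 0, 0]
noncomputable def c₁ : Fin 9 → ℝ :=
  ![0, k * A, k * A, k * √10, k * √10, k * -2, k * -2, k * -2, k * -2]
noncomputable def c₂ : Fin 9 → ℝ := ![k * 2, 0, 0, 0, 0, k * 4, k * 4, k * -4, k * -4]
noncomputable def n₁ : Fin 9 → ℝ := ![8, 8, 8, 4, 4, 7, 7, 7, 7]
noncomputable def n₂ : Fin 9 → ℝ := ![4, 4, 4, 4, 4, 1, 1, 1, 1]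
noncomputable def x₁ (p : ℝ × ℝ) (i : Fin 9) : ℝ := T (c₁ i) (n₁ i) (φ i) (m i) (ψ i) p
noncomputable def x₂ (p : ℝ × ℝ) (i : Fin 9) : ℝ := T (c₂ i) (n₂ i) (φ i) (m i) (ψ i) p

lemma hk : 540 * k ^ 2 = 1 := by
  rw [k, inv_pow, sq_sqrt (by norm_num)]; norm_num
lemma hA : A ^ 2 = 27 / 8 := sq_sqrt (by norm_num)
lemma h48 : √48 ^ 2 = 48 := sq_sqrt (by norm_num)
lemma h15 : √15 ^ 2 = 15 := sq_sqrt (by norm_num)
lemma h10 : √10 ^ 2 = 10 := sq_sqrt (by norm_num)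

lemma t1 (u : ℝ) : cos (7 * u) * cos u - sin (7 * u) * sin u = cos (8 * u) := by
  rw [← cos_add]; ring_nf
lemma t2 (u : ℝ) : 2 * cos (4 * u) ^ 2 - 1 = cos (8 * u) := by
  rw [← cos_two_mul]; ring_nf

lemma full (w : Fin 9 → ℝ) (r : ℝ) (h : ∀ p, ∑ i, w i * (c₀ i + x₁ p i + x₂ p i) = r) : w = 0 := by
  have k0 : k ≠ 0 := fun e => by simpa [e] using hk
  have A0 : A ≠ 0 := fun e => by have := hA; rw [e] at this; norm_num at this
  have a0 : 0 < √48 := by positivity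
  have s0 : 0 < sin (√15 * (π / √48)) := sin_pos_of_pos_of_lt_pi (by positivity) (by
    rw [mul_div_assoc', div_lt_iff₀ a0, mul_comm]
    exact mul_lt_mul_of_pos_left (sqrt_lt_sqrt (by norm_num) (by norm_num)) pi_pos)
  have e : ∀ u v, w 0 * (2 * cos (4 * u)) + w 1 * (4 / 3 * A + A * cos (8 * u)) +
      w 2 * (A * sin (8 * u)) + cos (√48 * v) * (w 3 * √10 * cos (4 * u)) +
      sin (√48 * v) * (w 4 * √10 * cos (4 * u)) +
      cos (√15 * v) * (w 5 * (4 * cos u - 2 * cos (7 * u)) + w 7 * (-4 * sin u - 2 * sin (7 * u))) +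
      sin (√15 * v) * (w 6 * (4 * cos u - 2 * cos (7 * u)) + w 8 * (-4 * sin u - 2 * sin (7 * u)))
      = r / k := fun u v => by
    rw [eq_div_iff k0, ← h (u, v)]
    simp [Fin.sum_univ_succ, c₀, x₁, x₂, T, c₁, c₂, n₁, n₂, φ, ψ, m, cos_sub_pi_div_two]
    ring
  have key : ∀ α β₁ β₂ γ₁ γ₂ : ℝ, (∀ v, α + cos (√48 * v) * β₁ + sin (√48 * v) * β₂ +
      cos (√15 * v) * γ₁ + sin (√15 * v) * γ₂ = r / k) →
      β₁ = 0 ∧ β₂ = 0 ∧ γ₁ = 0 ∧ γ₂ = 0 ∧ α = r / k := fun α β₁ β₂ γ₁ γ₂ H => by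
    have a1 := H 0
    have a2 := H (π / √48)
    have a3 := H (-(π / √48))
    have a4 := H (2 * (π / √48))
    have a5 := H (-(2 * (π / √48)))
    have a6 := H (π / 2 / √48)
    have a7 := H (-(π / 2 / √48))
    simp only [mul_zero, cos_zero, sin_zero, mul_neg, cos_neg, sin_neg, mul_left_comm _ (2:ℝ),
      mul_div_cancel₀ _ a0.ne', cos_pi, sin_pi, cos_two_pi, sin_two_pi, cos_two_mul' (√15 * _),
      cos_pi_div_two, sin_pi_div_two, cos_sq'] at a1 a2 a3 a4 a5 a6 a7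
    have b1 : γ₂ = 0 := (mul_eq_zero.1 (show sin (√15 * (π / √48)) * γ₂ = 0 by
      linarith)).resolve_left s0.ne'
    have b2 : γ₁ = 0 := (mul_eq_zero.1 (show sin (√15 * (π / √48)) ^ 2 * γ₁ = 0 by
      linarith)).resolve_left (by positivity)
    simp only [b1, b2, mul_zero] at a1 a2 a6 a7
    exact ⟨by linarith, by linarith, b2, b1, by linarith⟩
  obtain ⟨a1, a2, a3, a4, a5⟩ := key _ _ _ _ _ (e 0)
  obtain ⟨-, -, b3, b4, -⟩ := key _ _ _ _ _ (e (π / 2))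
  obtain ⟨-, -, -, -, d1⟩ := key _ _ _ _ _ (e (π / 4))
  obtain ⟨-, -, -, -, d2⟩ := key _ _ _ _ _ (e (π / 8))
  obtain ⟨-, -, -, -, d3⟩ := key _ _ _ _ _ (e (π / 16))
  rw [show 7 * (π / 2) = -(π / 2) + 2 * π + 2 * π by ring] at b3 b4
  rw [show 4 * (π / 4) = π by ring, show 8 * (π / 4) = 2 * π by ring] at d1
  rw [show 4 * (π / 8) = π / 2 by ring, show 8 * (π / 8) = π by ring] at d2
  rw [show 8 * (π / 16) = π / 2 by ring] at d3
  simp only [mul_zero, cos_zero, sin_zero, cos_pi, sin_pi, cos_two_pi, sin_two_pi, cos_pi_div_two,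
    sin_pi_div_two, cos_add_two_pi, sin_add_two_pi, cos_neg, sin_neg] at a1 a2 a3 a4 a5 b3 b4 d1 d2 d3
  have q : √10 ≠ 0 := by positivity
  have w0 : w 0 = 0 := by linarith
  have w1 : w 1 = 0 := (mul_eq_zero.1 (show w 1 * A = 0 by linarith)).resolve_right A0
  have w2 : w 2 = 0 := by
    simp only [w0, w1, zero_mul] at a5 d3
    exact (mul_eq_zero.1 (show w 2 * A = 0 by linarith)).resolve_right A0
  have w3 : w 3 = 0 := (mul_eq_zero.1 (show w 3 * √10 = 0 by linarith)).resolve_right q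
  have w4 : w 4 = 0 := (mul_eq_zero.1 (show w 4 * √10 = 0 by linarith)).resolve_right q
  have w5 : w 5 = 0 := by linarith
  have w6 : w 6 = 0 := by linarith
  have w7 : w 7 = 0 := by linarith
  have w8 : w 8 = 0 := by linarith
  ext i
  fin_cases i <;> assumption

/-- A flat 2-type surface lying fully in an eight-dimensional hypersphere of `E⁹`. -/
theorem result :
    ∃ (x x₁ x₂ : ℝ × ℝ → Fin 9 → ℝ) (c o : Fin 9 → ℝ) (l₁ l₂ R : ℝ),
      ContDiff ℝ ⊤ x₁ ∧ ContDiff ℝ ⊤ x₂ ∧ (∀ p, x p = c + x₁ p + x₂ p) ∧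
      (∀ p, ∑ i, D₁ (fun q => x q i) p ^ 2 = 1 ∧ ∑ i, D₂ (fun q => x q i) p ^ 2 = 1 ∧
        ∑ i, D₁ (fun q => x q i) p * D₂ (fun q => x q i) p = 0) ∧
      (∃ p q, x₁ p ≠ x₁ q) ∧ (∃ p q, x₂ p ≠ x₂ q) ∧ l₁ ≠ l₂ ∧
      (∀ p i, Lap (fun q => x₁ q i) p = l₁ * x₁ p i ∧ Lap (fun q => x₂ q i) p = l₂ * x₂ p i) ∧
      0 < R ∧ (∀ p, ∑ i, (x p i - o i) ^ 2 = R ^ 2) ∧
      ∀ (w : Fin 9 → ℝ) (r : ℝ), (∀ p, ∑ i, w i * x p i = r) → w = 0 := by
  have k0 : k ≠ 0 := fun e => by simpa [e] using hk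
  have A0 : A ≠ 0 := fun e => by have := hA; rw [e] at this; norm_num at this
  refine ⟨fun p => c₀ + x₁ p + x₂ p, x₁, x₂, c₀, 0, 64, 16, √(291 / 8 / 540), ?_, ?_, fun _ => rfl,
    fun p => ?_, ⟨0, (π / 8, 0), fun h => ?_⟩, ⟨0, (π / 4, 0), fun h => ?_⟩, by norm_num,
    fun p i => ⟨?_, ?_⟩, by positivity, fun p => ?_, full⟩
  · unfold x₁ T; fun_prop
  · unfold x₂ T; fun_prop
  · have e1 : ∀ i, D₁ (fun q => (c₀ + x₁ q + x₂ q) i) p = _ := fun i =>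
      (((h1 (c₁ i) (n₁ i) (φ i) (m i) (ψ i) p).const_add (c₀ i)).add
        (h1 (c₂ i) (n₂ i) (φ i) (m i) (ψ i) p)).deriv
    have e2 : ∀ i, D₂ (fun q => (c₀ + x₁ q + x₂ q) i) p = _ := fun i =>
      (((h2 (c₁ i) (n₁ i) (φ i) (m i) (ψ i) p).const_add (c₀ i)).add
        (h2 (c₂ i) (n₂ i) (φ i) (m i) (ψ i) p)).deriv
    simp only [e1, e2]
    simp [Fin.sum_univ_succ, T, c₁, c₂, n₁, n₂, φ, ψ, m, cos_add_pi_div_two, cos_sub_pi_div_two]
    obtain ⟨u, v⟩ := p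
    have s1 := sin_sq_add_cos_sq (√48 * v)
    have s2 := sin_sq_add_cos_sq (√15 * v)
    have s3 := sin_sq_add_cos_sq (4 * u)
    have s4 := sin_sq_add_cos_sq (8 * u)
    have s5 := sin_sq_add_cos_sq (7 * u)
    have s6 := sin_sq_add_cos_sq u
    refine ⟨?_, ?_, by ring⟩
    · linear_combination hk + k ^ 2 * (160 * sin (4 * u) ^ 2 * s1 +
        ((14 * sin (7 * u) - 4 * sin u) ^ 2 + (14 * cos (7 * u) + 4 * cos u) ^ 2) * s2 +
        224 * s3 + 216 * s4 + 196 * s5 + 16 * s6 + 112 * t1 u - 112 * t2 u +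
        64 * (sin (8 * u) ^ 2 + cos (8 * u) ^ 2) * hA +
        16 * sin (4 * u) ^ 2 * (sin (√48 * v) ^ 2 + cos (√48 * v) ^ 2) * h10)
    · linear_combination hk + k ^ 2 * (480 * cos (4 * u) ^ 2 * s1 +
        15 * ((4 * cos u - 2 * cos (7 * u)) ^ 2 + (4 * sin u + 2 * sin (7 * u)) ^ 2) * s2 +
        60 * s5 + 240 * s6 - 240 * t1 u + 240 * t2 u +
        cos (4 * u) ^ 2 * (sin (√48 * v) ^ 2 + cos (√48 * v) ^ 2) * (√48 ^ 2 * h10 + 10 * h48) +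
        ((4 * cos u - 2 * cos (7 * u)) ^ 2 + (4 * sin u + 2 * sin (7 * u)) ^ 2) *
          (sin (√15 * v) ^ 2 + cos (√15 * v) ^ 2) * h15)
  · have := congrFun h 1
    simp [x₁, T, c₁, n₁, φ, ψ, m, show 8 * (π / 8) = π by ring] at this
    exact mul_ne_zero k0 A0 (by linarith)
  · have := congrFun h 0
    simp [x₂, T, c₂, n₂, φ, ψ, m, show 4 * (π / 4) = π by ring] at this
    exact k0 (by linarith)
  · refine (lap _ _ _ _ _ p).trans ?_
    fin_cases i <;> simp [x₁, n₁, m] <;> norm_num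
  · refine (lap _ _ _ _ _ p).trans ?_
    fin_cases i <;> simp [x₂, n₂, m, c₂, T] <;> norm_num
  · rw [sq_sqrt (by norm_num)]
    simp only [Pi.add_apply]
    simp [Fin.sum_univ_succ, c₀, x₁, x₂, T, c₁, c₂, n₁, n₂, φ, ψ, m, cos_sub_pi_div_two]
    obtain ⟨u, v⟩ := p
    have s1 := sin_sq_add_cos_sq (√48 * v)
    have s2 := sin_sq_add_cos_sq (√15 * v)
    have s4 := sin_sq_add_cos_sq (8 * u)
    have s5 := sin_sq_add_cos_sq (7 * u)
    have s6 := sin_sq_add_cos_sq u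
    linear_combination 291 / 8 / 540 * hk + k ^ 2 * (10 * cos (4 * u) ^ 2 * s1 +
      ((4 * cos u - 2 * cos (7 * u)) ^ 2 + (4 * sin u + 2 * sin (7 * u)) ^ 2) * s2 +
      27 / 8 * s4 + 4 * s5 + 16 * s6 - 16 * t1 u + 7 * t2 u +
      (sin (8 * u) ^ 2 + (4 / 3 + cos (8 * u)) ^ 2) * hA +
      cos (4 * u) ^ 2 * (sin (√48 * v) ^ 2 + cos (√48 * v) ^ 2) * h10)

end Pool.Agent.Results.MP_1643f9_gt.FlatS8
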